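import Pool.Agent.T2h05.LL.TI

/-!
# FE: the function `4 · 2^n - 3 n` (helper5)
-/

set_option autoImplicit false

noncomputable section

open scoped Polynomial WithZero
open IsDedekindDomain WithZero

namespace Pool.Agent.T2h66.LL

namespace FEaux

open TIaux

/-- `g` has the invariant `n` -/
def HasN (g : GA) (n : ℕ) : Prop :=
  ∃ γ : GL (Fin 2) K, ∃ kf ∈ Kf, ∃ z : Kiˣ, ∃ k ∈ GO (Valued.v : Valuation Ki ℤᵐ⁰),
    g = diagK γ * atI (da (tI ^ n)) * (kf, sc z * k)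

lemma sc_mul {F : Type} [Field F] (z w : Fˣ) : (sc z : GL (Fin 2) F) * sc w = sc (z * w) := by
  ext i j
  fin_cases i <;> fin_cases j <;>
    simp [sc, bor, Matrix.mul_apply, Fin.sum_univ_two]

lemma sc_one {F : Type} [Field F] : (sc 1 : GL (Fin 2) F) = 1 := by
  ext i j
  fin_cases i <;> fin_cases j <;> simp [sc, bor]

lemma sc_inv {F : Type} [Field F] (z : Fˣ) : (sc z : GL (Fin 2) F)⁻¹ = sc z⁻¹ := by
  rw [inv_eq_iff_mul_eq_one, sc_mul, mul_inv_cancel, sc_one]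

lemma HasN.left {g : GA} {n : ℕ} (h : HasN g n) (γ : GL (Fin 2) K) : HasN (diagK γ * g) n := by
  obtain ⟨γ', kf, hkf, z, k, hk, rfl⟩ := h
  refine ⟨γ * γ', kf, hkf, z, k, hk, ?_⟩
  rw [map_mul]
  simp only [mul_assoc]

lemma HasN.right {g : GA} {n : ℕ} (h : HasN g n) {kf : GL (Fin 2) Af} (hkf : kf ∈ Kf) (z : Kiˣ)
    {k : GL (Fin 2) Ki} (hk : k ∈ GO (Valued.v : Valuation Ki ℤᵐ⁰)) :
    HasN (g * (kf, sc z * k)) n := by
  obtain ⟨γ', kf', hkf', z', k', hk', rfl⟩ := h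
  refine ⟨γ', kf' * kf, mul_mem hkf' hkf, z' * z, k' * k, mul_mem hk' hk, ?_⟩
  have h1 : sc z' * k' * (sc z * k) = sc (z' * z) * (k' * k) := by
    rw [← sc_mul, mul_assoc (sc z') k', ← mul_assoc k' (sc z), ← sc_comm z k']
    simp only [mul_assoc]
  have h2 : ((kf', sc z' * k') : GA) * (kf, sc z * k) = (kf' * kf, sc (z' * z) * (k' * k)) := by
    rw [← h1]
    rfl
  rw [mul_assoc _ _ (kf, sc z * k), h2]

lemma HasN.atI (n : ℕ) : HasN (atI (da (tI ^ n))) n := by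
  refine ⟨1, 1, one_mem _, 1, 1, one_mem _, ?_⟩
  rw [map_one, one_mul, sc_one, one_mul]
  exact (mul_one _).symm

lemma HasN.unique (hUQ : S_UQ) {g : GA} {m n : ℕ} (h : HasN g m) (h' : HasN g n) : m = n := by
  obtain ⟨γ, kf, hkf, z, k, hk, rfl⟩ := h
  obtain ⟨γ', kf', hkf', z', k', hk', he⟩ := h'
  refine hUQ m n (γ⁻¹ * γ') (z' * z⁻¹) (kf' * kf⁻¹) (mul_mem hkf' (inv_mem hkf)) (k' * k⁻¹)
    (mul_mem hk' (inv_mem hk)) ?_
  have h1 : Pool.Agent.T2h66.LL.atI (da (tI ^ m)) = (diagK γ)⁻¹ * (diagK γ' *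
      Pool.Agent.T2h66.LL.atI (da (tI ^ n)) * (kf', sc z' * k')) * (kf, sc z * k)⁻¹ := by
    rw [← he]
    group
  rw [h1, map_mul, map_inv]
  simp only [mul_assoc]
  congr 3
  rw [Prod.inv_mk, Prod.mk_mul_mk]
  congr 1
  rw [mul_inv_rev, sc_inv, ← sc_mul]
  simp only [mul_assoc]
  rw [← mul_assoc k' k⁻¹, ← sc_comm z⁻¹ (k' * k⁻¹)]

lemma aF_le (a : A) (v : Pl) : Valued.v (aF a v) ≤ 1 := by
  have h : aF a v = ((algebraMap A K a : K) : Kv v) := rfl
  rw [h, HeightOneSpectrum.valuedAdicCompletion_eq_valuation']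
  exact v.valuation_le_one a

lemma map_mem_Kf (δ : GL (Fin 2) A) : Matrix.GeneralLinearGroup.map aF δ ∈ Kf := by
  intro v i j
  refine ⟨aF_le _ v, ?_⟩
  rw [← map_inv]
  exact aF_le _ v

lemma map_aI (δ : GL (Fin 2) A) : Matrix.GeneralLinearGroup.map (algebraMap K Ki)
    (Matrix.GeneralLinearGroup.map (algebraMap A K) δ) = Matrix.GeneralLinearGroup.map aI δ := rfl

lemma map_aF (δ : GL (Fin 2) A) : Matrix.GeneralLinearGroup.map (algebraMap K Af)
    (Matrix.GeneralLinearGroup.map (algebraMap A K) δ) = Matrix.GeneralLinearGroup.map aF δ := rfl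

lemma exists_HasN (hCN : S_CN) (hRE : S_RE) (g : GA) : ∃ n, HasN g n := by
  obtain ⟨γ, k1, hk1, h1⟩ := hCN g.1
  obtain ⟨δ, n, z, k, hk, h2⟩ := hRE ((Matrix.GeneralLinearGroup.map (algebraMap K Ki) γ)⁻¹ * g.2)
  refine ⟨n, γ * Matrix.GeneralLinearGroup.map (algebraMap A K) δ,
    (Matrix.GeneralLinearGroup.map aF δ)⁻¹ * k1, mul_mem (inv_mem (map_mem_Kf δ)) hk1, z, k, hk, ?_⟩
  ext1
  · change g.1 = Matrix.GeneralLinearGroup.map (algebraMap K Af) (γ *
      Matrix.GeneralLinearGroup.map (algebraMap A K) δ) * 1 *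
      ((Matrix.GeneralLinearGroup.map aF δ)⁻¹ * k1)
    rw [map_mul, map_aF, h1]
    group
  · change g.2 = Matrix.GeneralLinearGroup.map (algebraMap K Ki) (γ *
      Matrix.GeneralLinearGroup.map (algebraMap A K) δ) * da (tI ^ n) * (sc z * k)
    rw [map_mul, map_aI, mul_assoc (Matrix.GeneralLinearGroup.map (algebraMap K Ki) γ),
      mul_assoc (Matrix.GeneralLinearGroup.map (algebraMap K Ki) γ), ← mul_assoc _ (sc z) k, ← h2]
    group

/-- left multiplication by an element of `GL_2(A)` at infinity -/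
lemma HasN.leftI {x : GL (Fin 2) Ki} {n : ℕ} (h : HasN (Pool.Agent.T2h66.LL.atI x) n)
    (δ : GL (Fin 2) A) :
    HasN (Pool.Agent.T2h66.LL.atI (Matrix.GeneralLinearGroup.map aI δ * x)) n := by
  have h1 := (h.left (Matrix.GeneralLinearGroup.map (algebraMap A K) δ)).right
    (inv_mem (map_mem_Kf δ)) 1 (one_mem _)
  convert h1 using 1
  ext1
  · change (1 : GL (Fin 2) Af) = Matrix.GeneralLinearGroup.map (algebraMap K Af)
      (Matrix.GeneralLinearGroup.map (algebraMap A K) δ) * 1 * (Matrix.GeneralLinearGroup.map aF δ)⁻¹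
    rw [map_aF]
    group
  · change _ = Matrix.GeneralLinearGroup.map (algebraMap K Ki)
      (Matrix.GeneralLinearGroup.map (algebraMap A K) δ) * x * (sc 1 * 1)
    rw [map_aI, sc_one, one_mul, mul_one]
    rfl

lemma HasN.rightI {x : GL (Fin 2) Ki} {n : ℕ} (h : HasN (Pool.Agent.T2h66.LL.atI x) n) (z : Kiˣ)
    {k : GL (Fin 2) Ki} (hk : k ∈ GO (Valued.v : Valuation Ki ℤᵐ⁰)) :
    HasN (Pool.Agent.T2h66.LL.atI (x * (sc z * k))) n := by
  have h1 := h.right (one_mem Kf) z hk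
  convert h1 using 1
  ext1
  · exact (mul_one _).symm
  · rfl

lemma map_om : Matrix.GeneralLinearGroup.map aI (om : GL (Fin 2) A) = om := by
  ext i j
  fin_cases i <;> fin_cases j <;> simp [om]

lemma map_nU (a : A) : Matrix.GeneralLinearGroup.map aI (nU a : GL (Fin 2) A) = nU (aI a) := by
  ext i j
  fin_cases i <;> fin_cases j <;> simp [nU]

lemma tI_eq : ((tI : Kiˣ) : Ki) = aI Polynomial.X := by
  simp [tI, aI, RatFunc.algebraMap_X]

/-- the values of the invariant at the three neighbours -/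
lemma nb1 (n : ℕ) : HasN (Pool.Agent.T2h66.LL.atI (da (tI ^ (n + 1)) * da pI)) n := by
  have h : (da (tI ^ (n + 1)) * da pI : GL (Fin 2) Ki) = da (tI ^ n) := by
    ext i j
    fin_cases i <;> fin_cases j <;>
      simp [da, bor, Matrix.mul_apply, Fin.sum_univ_two, pI, pow_succ]
  rw [h]
  exact HasN.atI n

lemma nb2 (n : ℕ) : HasN (Pool.Agent.T2h66.LL.atI (da (tI ^ (n + 1)) * (nU 1 * da pI))) n := by
  have h : (da (tI ^ (n + 1)) * (nU 1 * da pI) : GL (Fin 2) Ki) =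
      Matrix.GeneralLinearGroup.map aI (nU (Polynomial.X ^ (n + 1))) * da (tI ^ n) := by
    rw [map_nU, map_pow, ← tI_eq]
    ext i j
    fin_cases i <;> fin_cases j <;>
      simp [da, bor, nU, Matrix.mul_apply, Fin.sum_univ_two, pI, pow_succ]
  rw [h]
  exact (HasN.atI n).leftI _

lemma nb3 (n : ℕ) : HasN (Pool.Agent.T2h66.LL.atI (da (tI ^ n) * (om * da pI))) (n + 1) := by
  have h : (da (tI ^ n) * (om * da pI) : GL (Fin 2) Ki) =
      da (tI ^ (n + 1)) * (sc pI * om) := by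
    ext i j
    fin_cases i <;> fin_cases j <;>
      simp [da, bor, om, sc, Matrix.mul_apply, Fin.sum_univ_two, pI, pow_succ]
  rw [h]
  exact (HasN.atI (n + 1)).rightI _ (om_mem _)

lemma nb4 : HasN (Pool.Agent.T2h66.LL.atI (da (tI ^ 0) * da pI)) 1 := by
  have h : (da (tI ^ 0) * da pI : GL (Fin 2) Ki) =
      Matrix.GeneralLinearGroup.map aI om * (da (tI ^ 1) * (sc pI * om)) := by
    rw [map_om]
    ext i j
    fin_cases i <;> fin_cases j <;>
      simp [da, bor, om, sc, Matrix.mul_apply, Fin.sum_univ_two, pI, pow_succ]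
  rw [h]
  exact ((HasN.atI 1).rightI _ (om_mem _)).leftI _

lemma nb5 : HasN (Pool.Agent.T2h66.LL.atI (da (tI ^ 0) * (nU 1 * da pI))) 1 := by
  have h : (da (tI ^ 0) * (nU 1 * da pI) : GL (Fin 2) Ki) =
      Matrix.GeneralLinearGroup.map aI (nU 1) * (da (tI ^ 0) * da pI) := by
    rw [map_nU, map_one]
    ext i j
    fin_cases i <;> fin_cases j <;>
      simp [da, bor, nU, Matrix.mul_apply, Fin.sum_univ_two, pI]
  rw [h]
  exact nb4.leftI _

end FEaux

open FEaux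

theorem t_FE : S_CN → S_RE → S_UQ → S_IF → S_TI → S_FE := by
  intro hCN hRE hUQ hIF hTI
  choose N hN using exists_HasN hCN hRE
  have hNeq : ∀ {g : GA} {n : ℕ}, HasN g n → N g = n := fun {g n} h => (hN g).unique hUQ h
  let e : ℕ → ℂ := fun n => 4 * 2 ^ n - 3 * n
  let E : GA → ℂ := fun g => e (N g)
  have hEv : ∀ {g : GA} {n : ℕ}, HasN g n → E g = e n := fun {g n} h => by
    change e (N g) = e n
    rw [hNeq h]
  have hE : LevelOne E := ⟨fun γ g => hEv ((hN g).left γ), fun kf hkf z k hk g =>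
    hEv ((hN g).right hkf z hk)⟩
  have hTE := hTI E hE
  have hn : ∀ n : ℕ, Ti E (Pool.Agent.T2h66.LL.atI (da (tI ^ n))) = 3 * e n + 3 := by
    intro n
    have h1 : ∀ x, Pool.Agent.T2h66.LL.atI (da (tI ^ n)) * Pool.Agent.T2h66.LL.atI x =
        Pool.Agent.T2h66.LL.atI (da (tI ^ n) * x) := by
      intro x; rw [← map_mul]
    rw [Ti, h1, h1, h1]
    rcases n with _ | m
    · rw [hEv nb4, hEv nb5, hEv (nb3 0)]
      simp only [e]
      norm_num
    · rw [hEv (nb1 m), hEv (nb2 m), hEv (nb3 (m + 1))]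
      simp only [e]
      push_cast
      ring
  refine ⟨E, hE, fun g => ?_, ?_⟩
  · obtain ⟨γ, kf, hkf, z, k, hk, he⟩ := hN g
    have h1 : Ti E g = Ti E (Pool.Agent.T2h66.LL.atI (da (tI ^ (N g)))) := by
      conv_lhs => rw [he]
      rw [hTE.right kf hkf z k hk, hTE.left]
    rw [h1, hn]
  · have h0 : HasN (Pool.Agent.T2h66.LL.atI (om * da pI)) 1 := by
      have := nb3 0
      rwa [pow_zero, show (da (1 : Kiˣ) : GL (Fin 2) Ki) = 1 from sc_one, one_mul] at this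
    have h1 : HasN (1 : GA) 0 := by
      have := HasN.atI 0
      rwa [pow_zero, show (da (1 : Kiˣ) : GL (Fin 2) Ki) = 1 from sc_one, map_one] at this
    rw [hEv h0, hEv h1]
    simp only [e]
    norm_num

end Pool.Agent.T2h66.LL
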