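import Pool.Agent.T2h66.LL.Stm

/-!
# TI: the Hecke operator at infinity preserves the functions of level one (helper5)
-/

set_option autoImplicit false

noncomputable section

open scoped Polynomial WithZero
open IsDedekindDomain WithZero

namespace Pool.Agent.T2h66.LL

namespace TIaux

variable {F : Type} [Field F]

lemma det_val_one {v : Valuation F ℤᵐ⁰} {g : GL (Fin 2) F} (hg : g ∈ GO v) :
    v (g.det : F) = 1 := by
  have key : ∀ a : GL (Fin 2) F, (∀ i j, v (a i j) ≤ 1) → v (a.det : F) ≤ 1 := by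
    intro a ha
    have h1 : ((a.det : Fˣ) : F) = a 0 0 * a 1 1 - a 0 1 * a 1 0 := by
      change Matrix.det (a : Matrix (Fin 2) (Fin 2) F) = _
      rw [Matrix.det_fin_two]
    rw [h1]
    refine (v.map_sub _ _).trans (max_le ?_ ?_)
    · rw [map_mul]; exact mul_le_one' (ha 0 0) (ha 1 1)
    · rw [map_mul]; exact mul_le_one' (ha 0 1) (ha 1 0)
  have h1 := key g fun i j => (hg i j).1
  have h2 := key g⁻¹ fun i j => (hg i j).2
  have h3 : v (g.det : F) * v ((g⁻¹).det : F) = 1 := by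
    rw [← map_mul, ← Units.val_mul, ← map_mul, mul_inv_cancel, map_one, Units.val_one, map_one]
  refine le_antisymm h1 ?_
  calc (1 : ℤᵐ⁰) = v (g.det : F) * v ((g⁻¹).det : F) := h3.symm
    _ ≤ v (g.det : F) * 1 := by gcongr
    _ = _ := mul_one _

lemma mem_GO {v : Valuation F ℤᵐ⁰} {g : GL (Fin 2) F} (h : ∀ i j, v (g i j) ≤ 1)
    (hd : v (g.det : F) = 1) : g ∈ GO v := by
  intro i j
  refine ⟨h i j, ?_⟩
  have h1 : ((g⁻¹ : GL (Fin 2) F) : Matrix (Fin 2) (Fin 2) F) =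
      ((g.det : F))⁻¹ • (g : Matrix (Fin 2) (Fin 2) F).adjugate := by
    rw [Matrix.coe_units_inv, Matrix.inv_def]
    congr 1
    rw [Ring.inverse_eq_inv']
    rfl
  rw [h1, Matrix.adjugate_fin_two, Matrix.smul_apply, smul_eq_mul, map_mul, map_inv₀, hd, inv_one,
    one_mul]
  fin_cases i <;> fin_cases j <;> simp [h]

lemma om_mem (v : Valuation F ℤᵐ⁰) : (om : GL (Fin 2) F) ∈ GO v := by
  refine mem_GO (fun i j => ?_) ?_
  · fin_cases i <;> fin_cases j <;> simp [om]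
  · change v (Matrix.det !![0, 1; 1, 0]) = 1
    rw [Matrix.det_fin_two]
    simp

lemma bor_mem {v : Valuation F ℤᵐ⁰} {a d : Fˣ} {b : F} (ha : v a = 1) (hd : v d = 1)
    (hb : v b ≤ 1) : bor a b d ∈ GO v := by
  refine mem_GO (fun i j => ?_) ?_
  · fin_cases i <;> fin_cases j <;> simp [bor, ha, hd, hb]
  · change v (Matrix.det !![(a : F), b; 0, (d : F)]) = 1
    rw [Matrix.det_fin_two]
    simp [ha, hd]

/-- the sum over the three cosets -/
def S3 (ϖ : Fˣ) (f : GL (Fin 2) F → ℂ) : ℂ :=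
  f (da ϖ) + f (nU 1 * da ϖ) + f (om * da ϖ)

/-- the invariance of `S3` -/
def Good (v : Valuation F ℤᵐ⁰) (ϖ : Fˣ) (k : GL (Fin 2) F) : Prop :=
  ∀ f : GL (Fin 2) F → ℂ, (∀ g, ∀ κ ∈ GO v, f (g * κ) = f g) →
    S3 ϖ (fun g => f (k * g)) = S3 ϖ f

lemma Good.mul {v : Valuation F ℤᵐ⁰} {ϖ : Fˣ} {k l : GL (Fin 2) F} (hk : Good v ϖ k)
    (hl : Good v ϖ l) : Good v ϖ (k * l) := by
  intro f hf
  have h1 := hl (fun g => f (k * g)) (fun g κ hκ => by simp only [← mul_assoc]; exact hf _ κ hκ)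
  simp only [← mul_assoc] at h1 ⊢
  rw [h1]
  exact hk f hf

lemma om_mul_om : (om : GL (Fin 2) F) * om = 1 := by
  ext i j
  fin_cases i <;> fin_cases j <;> simp [om, Matrix.mul_apply, Fin.sum_univ_two]

lemma good_om {v : Valuation F ℤᵐ⁰} {ϖ : Fˣ} (hϖ : v ϖ ≤ 1) : Good v ϖ om := by
  intro f hf
  have e2 : om * (nU 1 * da ϖ) = nU 1 * da ϖ * (om * bor 1 (ϖ : F) (-1) * om) := by
    ext i j
    fin_cases i <;> fin_cases j <;>
      simp [om, nU, da, bor, Matrix.mul_apply, Fin.sum_univ_two]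
  have m2 : (om * bor 1 (ϖ : F) (-1) * om : GL (Fin 2) F) ∈ GO v :=
    mul_mem (mul_mem (om_mem v) (bor_mem (by simp) (by simp) hϖ)) (om_mem v)
  change f (om * da ϖ) + f (om * (nU 1 * da ϖ)) + f (om * (om * da ϖ)) =
    f (da ϖ) + f (nU 1 * da ϖ) + f (om * da ϖ)
  rw [e2, hf _ _ m2, ← mul_assoc om om, om_mul_om, one_mul]
  ring

lemma nU_om_da {v : Valuation F ℤᵐ⁰} {ϖ : Fˣ} {f : GL (Fin 2) F → ℂ}
    (hf : ∀ g, ∀ κ ∈ GO v, f (g * κ) = f g) {b : F} (hb : v (b * ϖ) ≤ 1) :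
    f (nU b * (om * da ϖ)) = f (om * da ϖ) := by
  have e3 : (nU b : GL (Fin 2) F) * (om * da ϖ) =
      om * da ϖ * (om * bor 1 (b * ϖ : F) 1 * om) := by
    ext i j
    fin_cases i <;> fin_cases j <;>
      simp [om, nU, da, bor, Matrix.mul_apply, Fin.sum_univ_two]
  have m3 : (om * bor 1 (b * ϖ : F) 1 * om : GL (Fin 2) F) ∈ GO v :=
    mul_mem (mul_mem (om_mem v) (bor_mem (by simp) (by simp) hb)) (om_mem v)
  rw [e3, hf _ _ m3]

lemma nU_da {v : Valuation F ℤᵐ⁰} {ϖ : Fˣ} {f : GL (Fin 2) F → ℂ}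
    (hf : ∀ g, ∀ κ ∈ GO v, f (g * κ) = f g) {b c : F} (hb : v (b / ϖ) ≤ 1) :
    f (nU (c + b) * da ϖ) = f (nU c * da ϖ) := by
  have e3 : (nU (c + b) : GL (Fin 2) F) * da ϖ = nU c * da ϖ * bor 1 (b / ϖ) 1 := by
    ext i j
    fin_cases i <;> fin_cases j <;>
      simp [nU, da, bor, Matrix.mul_apply, Fin.sum_univ_two]
    field_simp
    ring
  rw [e3, hf _ _ (bor_mem (by simp) (by simp) hb)]

lemma nU_add (b c : F) : (nU b : GL (Fin 2) F) * nU c = nU (b + c) := by
  ext i j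
  fin_cases i <;> fin_cases j <;>
    simp [nU, Matrix.mul_apply, Fin.sum_univ_two, add_comm]

lemma nU_zero : (nU 0 : GL (Fin 2) F) = 1 := by
  ext i j
  fin_cases i <;> fin_cases j <;> simp [nU]

lemma good_nU1 {v : Valuation F ℤᵐ⁰} {ϖ : Fˣ} (h2 : v ((2 : F) / ϖ) ≤ 1)
    (hϖ : v ϖ ≤ 1) : Good v ϖ (nU 1) := by
  intro f hf
  have e2 : f (nU 1 * (nU 1 * da ϖ)) = f (da ϖ) := by
    have h := nU_da hf (b := (2 : F)) (c := 0) h2
    rw [nU_zero, one_mul, zero_add] at h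
    rw [← mul_assoc, nU_add, one_add_one_eq_two, h]
  have e3 := nU_om_da hf (ϖ := ϖ) (b := 1) (by rwa [one_mul])
  change f (nU 1 * da ϖ) + f (nU 1 * (nU 1 * da ϖ)) + f (nU 1 * (om * da ϖ)) =
    f (da ϖ) + f (nU 1 * da ϖ) + f (om * da ϖ)
  rw [e2, e3]
  ring

lemma good_nU {v : Valuation F ℤᵐ⁰} {ϖ : Fˣ} {b : F} (hb : v (b / ϖ) ≤ 1)
    (hb' : v (b * ϖ) ≤ 1) : Good v ϖ (nU b) := by
  intro f hf
  have e1 : f (nU b * da ϖ) = f (da ϖ) := by
    have h := nU_da hf (b := b) (c := 0) hb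
    rwa [nU_zero, one_mul, zero_add] at h
  have e2 : f (nU b * (nU 1 * da ϖ)) = f (nU 1 * da ϖ) := by
    rw [← mul_assoc, nU_add, add_comm, nU_da hf hb]
  have e3 := nU_om_da hf hb'
  change f (nU b * da ϖ) + f (nU b * (nU 1 * da ϖ)) + f (nU b * (om * da ϖ)) =
    f (da ϖ) + f (nU 1 * da ϖ) + f (om * da ϖ)
  rw [e1, e2, e3]

lemma good_diag {v : Valuation F ℤᵐ⁰} {ϖ : Fˣ} {a d : Fˣ} (ha : v a = 1) (hd : v d = 1)
    (had : v (((a : F) - d) / ϖ) ≤ 1) : Good v ϖ (bor a 0 d) := by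
  intro f hf
  have e1 : (bor a 0 d : GL (Fin 2) F) * da ϖ = da ϖ * bor a 0 d := by
    ext i j
    fin_cases i <;> fin_cases j <;>
      simp [da, bor, Matrix.mul_apply, Fin.sum_univ_two, mul_comm]
  have e2 : (bor a 0 d : GL (Fin 2) F) * (nU 1 * da ϖ) =
      nU 1 * da ϖ * bor a (((a : F) - d) / ϖ) d := by
    ext i j
    fin_cases i <;> fin_cases j <;>
      simp [nU, da, bor, Matrix.mul_apply, Fin.sum_univ_two, mul_comm]
    field_simp
    ring
  have e3 : (bor a 0 d : GL (Fin 2) F) * (om * da ϖ) = om * da ϖ * bor d 0 a := by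
    ext i j
    fin_cases i <;> fin_cases j <;>
      simp [om, da, bor, Matrix.mul_apply, Fin.sum_univ_two, mul_comm]
  change f (bor a 0 d * da ϖ) + f (bor a 0 d * (nU 1 * da ϖ)) + f (bor a 0 d * (om * da ϖ)) =
    f (da ϖ) + f (nU 1 * da ϖ) + f (om * da ϖ)
  rw [e1, e2, e3, hf _ _ (bor_mem ha hd (by simp)), hf _ _ (bor_mem ha hd had),
    hf _ _ (bor_mem hd ha (by simp))]

lemma lt_one_iff (x : ℤᵐ⁰) : x < 1 ↔ x ≤ exp (-1 : ℤ) := by
  rw [← exp_zero (M := ℤ)]
  induction x using WithZero.expRecOn with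
  | zero => simp
  | exp a => simp only [exp_lt_exp, exp_le_exp]; omega

lemma div_le {v : Valuation F ℤᵐ⁰} {ϖ : Fˣ} (hϖ : v ϖ = exp (-1 : ℤ)) {x : F} (hx : v x < 1) :
    v (x / ϖ) ≤ 1 := by
  rw [map_div₀, hϖ]
  rw [lt_one_iff] at hx
  exact div_le_one_of_le₀ hx zero_le

/-- every element of `GL_2(O)` permutes the three cosets -/
theorem good_all {v : Valuation F ℤᵐ⁰} {ϖ : Fˣ} (hϖ : v ϖ = exp (-1 : ℤ)) (hr : Res2 v)
    {k : GL (Fin 2) F} (hk : k ∈ GO v) : Good v ϖ k := by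
  have hϖ1 : v ϖ ≤ 1 := by
    rw [hϖ, ← exp_zero (M := ℤ), exp_le_exp]; norm_num
  have h2 : v (2 : F) < 1 := by
    have h := hr (-1) (by simp)
    have h' : ((-1 : F) - 1) = -2 := by norm_num
    rwa [h', Valuation.map_neg] at h
  have hsub : ∀ a d : F, v a = 1 → v d = 1 → v (a - d) < 1 := by
    intro a d ha hd
    have h : a - d = (a - 1) - (d - 1) := by ring
    rw [h]
    exact lt_of_le_of_lt (v.map_sub _ _) (max_lt (hr a ha) (hr d hd))
  have gom : Good v ϖ om := good_om hϖ1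
  have gnU : ∀ b : F, v b ≤ 1 → Good v ϖ (nU b) := by
    intro b hb
    rcases lt_or_eq_of_le hb with h | h
    · exact good_nU (div_le hϖ h) (by rw [map_mul]; exact mul_le_one' hb hϖ1)
    · have h1 : (nU b : GL (Fin 2) F) = nU 1 * nU (b - 1) := by
        rw [nU_add]; congr 1; ring
      rw [h1]
      have h3 := hr b h
      exact (good_nU1 (div_le hϖ h2) hϖ1).mul
        (good_nU (div_le hϖ h3) (by rw [map_mul]; exact mul_le_one' h3.le hϖ1))
  have gdiag : ∀ a d : Fˣ, v a = 1 → v d = 1 → Good v ϖ (bor a 0 d) := fun a d ha hd =>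
    good_diag ha hd (div_le hϖ (hsub _ _ ha hd))
  -- the case of a unit in the upper left corner
  have main : ∀ k : GL (Fin 2) F, k ∈ GO v → v (k 0 0) = 1 → Good v ϖ k := by
    intro k hk h00
    have ha0 : (k 0 0) ≠ 0 := by
      intro h; rw [h, map_zero] at h00; exact zero_ne_one h00
    have hdet := det_val_one hk
    set a : Fˣ := Units.mk0 (k 0 0) ha0 with ha
    have hva : v a = 1 := h00
    set D : Fˣ := k.det with hD
    have hvd : v ((D / a : Fˣ) : F) = 1 := by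
      rw [Units.val_div_eq_div_val, map_div₀, hdet, hva, div_one]
    have hdec : k = om * nU (k 1 0 / k 0 0) * om * bor a 0 (D / a) * nU (k 0 1 / k 0 0) := by
      have hDe : (D : F) = k 0 0 * k 1 1 - k 0 1 * k 1 0 := by
        change Matrix.det (k : Matrix (Fin 2) (Fin 2) F) = _
        rw [Matrix.det_fin_two]
      ext i j
      fin_cases i <;> fin_cases j <;>
        simp [om, nU, bor, Matrix.mul_apply, Fin.sum_univ_two, hDe, ha] <;> field_simp
      ring
    rw [hdec]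
    refine ((((gom.mul (gnU _ ?_)).mul gom).mul (gdiag _ _ hva hvd)).mul (gnU _ ?_))
    · rw [map_div₀, h00, div_one]; exact (hk 1 0).1
    · rw [map_div₀, h00, div_one]; exact (hk 0 1).1
  rcases lt_or_eq_of_le (hk 0 0).1 with h | h
  · have hk' : om * k ∈ GO v := mul_mem (om_mem v) hk
    have h00' : (om * k : GL (Fin 2) F) 0 0 = k 1 0 := by
      simp [om, Matrix.mul_apply, Fin.sum_univ_two]
    have h10 : v (k 1 0) = 1 := by
      by_contra hne
      have hlt : v (k 1 0) < 1 := lt_of_le_of_ne (hk 1 0).1 hne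
      have hdet := det_val_one hk
      have hDe : ((k.det : Fˣ) : F) = k 0 0 * k 1 1 - k 0 1 * k 1 0 := by
        change Matrix.det (k : Matrix (Fin 2) (Fin 2) F) = _
        rw [Matrix.det_fin_two]
      rw [hDe] at hdet
      have : v (k 0 0 * k 1 1 - k 0 1 * k 1 0) < 1 := by
        refine lt_of_le_of_lt (v.map_sub _ _) (max_lt ?_ ?_)
        · rw [map_mul]
          exact lt_of_le_of_lt (mul_le_of_le_one_right' (hk 1 1).1) h
        · rw [map_mul]
          exact lt_of_le_of_lt (mul_le_of_le_one_left' (hk 0 1).1) hlt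
      exact absurd hdet this.ne
    have h1 := main (om * k) hk' (by rw [h00', h10])
    have h2 : k = om * (om * k) := by rw [← mul_assoc, om_mul_om, one_mul]
    rw [h2]
    exact gom.mul h1
  · exact main k hk h

end TIaux

open TIaux

lemma sc_comm {F : Type} [Field F] (z : Fˣ) (g : GL (Fin 2) F) : sc z * g = g * sc z := by
  ext i j
  fin_cases i <;> fin_cases j <;>
    simp [sc, bor, Matrix.mul_apply, Fin.sum_univ_two, mul_comm]

theorem t_TI : S_IF → S_TI := by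
  rintro ⟨hp, hr, -, -⟩ E hE
  refine ⟨fun γ g => ?_, fun kf hkf z k hk g => ?_⟩
  · simp only [Ti, mul_assoc, hE.left]
  · have hinv : ∀ h : GL (Fin 2) Ki, ∀ κ ∈ GO (Valued.v : Valuation Ki ℤᵐ⁰),
        E (g * (kf, sc z * (h * κ))) = E (g * (kf, sc z * h)) := by
      intro h κ hκ
      have h1 : g * (kf, sc z * (h * κ)) = g * (kf, sc z * h) * (1, sc 1 * κ) := by
        rw [mul_assoc g]
        congr 1
        ext1
        · simp
        · have h2 : (sc (1 : Kiˣ) : GL (Fin 2) Ki) = 1 := by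
            ext i j
            fin_cases i <;> fin_cases j <;> simp [sc, bor]
          simp [h2, mul_assoc]
      rw [h1, hE.right 1 (one_mem _) 1 κ hκ]
    have h2 := good_all hp hr hk (fun h => E (g * (kf, sc z * h))) hinv
    have h3 : ∀ x : GL (Fin 2) Ki, E (g * (kf, sc z * x)) = E (g * atI x) := by
      intro x
      have h4 : g * (kf, sc z * x) = g * atI x * (kf, sc z * 1) := by
        rw [mul_assoc g]
        congr 1
        ext1
        · simp [atI]
        · simp [atI, sc_comm]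
      rw [h4, hE.right kf hkf z 1 (one_mem _)]
    have h5 : ∀ x : GL (Fin 2) Ki, E (g * (kf, sc z * k) * atI x) = E (g * (kf, sc z * (k * x))) := by
      intro x
      congr 1
      rw [mul_assoc g]
      congr 1
      ext1
      · simp [atI]
      · simp [atI, mul_assoc]
    simp only [Ti, h5, h3]
    simp only [S3, h3] at h2
    exact h2

end Pool.Agent.T2h66.LL
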